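import Pool.Agent.R308.PascalData

/-!
# MP_165cab_nt: lower asymptotic constants for binomial coefficients prime to 5, 7, 11

`f p n` counts the pairs `(k, j)` with `0 ≤ j ≤ k ≤ n - 1` and `p ∤ binom k j`;
`θ p = log (p (p + 1) / 2) / log p`;
`lam p = liminf_{n → ∞} f p n * n ^ (-θ p)`.

All three conjectured equalities hold.
-/

namespace Pool.Agent.Results.MP_165cab_nt.LowerConstants

open Filter Finset

/-- The number of pairs `(k, j)` with `0 ≤ j ≤ k ≤ n - 1` and `p ∤ binom k j`. -/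
def f (p n : ℕ) : ℕ :=
  ((range n ×ˢ range n).filter (fun q => q.2 ≤ q.1 ∧ ¬ p ∣ q.1.choose q.2)).card

/-- The exponent `log (p (p + 1) / 2) / log p`. -/
noncomputable def θ (p : ℕ) : ℝ := Real.log ((p : ℝ) * (p + 1) / 2) / Real.log p

/-- `liminf_{n → ∞} f p n * n ^ (-θ p)`. -/
noncomputable def lam (p : ℕ) : ℝ :=
  liminf (fun n : ℕ => (f p n : ℝ) * (n : ℝ) ^ (-θ p)) atTop

open Pool.Agent.R308.Pascal in
theorem f_eq_cnt (p n : ℕ) : f p n = cnt p n := by
  rw [f, cnt, card_filter, sum_product]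
  refine sum_congr rfl (fun k hk => ?_)
  rw [mem_range] at hk
  rw [row, card_filter]
  symm
  refine sum_subset_zero_on_sdiff ?_ ?_ ?_
  · intro x hx
    rw [mem_range] at hx ⊢
    omega
  · intro x hx
    have hx2 : ¬ x < k + 1 := by
      have := (mem_sdiff.1 hx).2
      rwa [mem_range] at this
    rw [if_neg]
    rintro ⟨h, -⟩
    exact hx2 (Nat.lt_succ_of_le h)
  · intro x hx
    rw [mem_range] at hx
    have h1 : x ≤ k := by omega
    by_cases h2 : p ∣ k.choose x <;> simp [h1, h2]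

open Pool.Agent.R308.Pascal in
theorem lam_eq (p : ℕ) : lam p = liminf (fun n : ℕ => (cnt p n : ℝ) * (n : ℝ) ^ (-theta p)) atTop := by
  simp only [lam, f_eq_cnt, θ, theta]

/-- **Theorem.** All three equalities hold:
`λ_5 = (3/2)^(1-θ_5)`, `λ_7 = (3/2)^(1-θ_7)` and `λ_11 = (59/44) (22/31)^θ_11`. -/
theorem result :
    lam 5 = (3 / 2 : ℝ) ^ (1 - θ 5) ∧ lam 7 = (3 / 2 : ℝ) ^ (1 - θ 7) ∧
      lam 11 = (59 / 44 : ℝ) * (22 / 31 : ℝ) ^ (θ 11) := by
  have key : ∀ t : ℝ, (3 / 2 : ℝ) ^ (1 - t) = (3 / 2) / (3 / 2 : ℝ) ^ t := by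
    intro t
    rw [Real.rpow_sub (by norm_num), Real.rpow_one]
  refine ⟨?_, ?_, ?_⟩
  · rw [lam_eq, key]
    have h0 : Pool.Agent.R308.Pascal.reg5 0 0 := by
      unfold Pool.Agent.R308.Pascal.reg5; norm_num
    have h1 : Pool.Agent.R308.Pascal.reg5 1 1 := by
      unfold Pool.Agent.R308.Pascal.reg5; norm_num
    refine Pool.Agent.R308.Pascal.liminf_eq Pool.Agent.R308.Pascal.prime5 2 rfl 1 le_rfl _ ?_ ?_
    · have e1 : Pool.Agent.R308.Pascal.cnt 5 1 = 1 := by decide
      have e2 : Pool.Agent.R308.Pascal.row 5 1 = 2 := by decide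
      rw [e1, e2]
      norm_num [θ, Pool.Agent.R308.Pascal.theta]
    · intro n hn
      exact Pool.Agent.R308.Pascal.lower Pool.Agent.R308.Pascal.prime5
        Pool.Agent.R308.Pascal.reg5 h0 h1 Pool.Agent.R308.Pascal.step5 _ _ (by norm_num)
        Pool.Agent.R308.Pascal.fin5 n hn
  · rw [lam_eq, key]
    have h0 : Pool.Agent.R308.Pascal.reg7 0 0 := by
      unfold Pool.Agent.R308.Pascal.reg7; norm_num
    have h1 : Pool.Agent.R308.Pascal.reg7 1 1 := by
      unfold Pool.Agent.R308.Pascal.reg7; norm_num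
    refine Pool.Agent.R308.Pascal.liminf_eq Pool.Agent.R308.Pascal.prime7 3 rfl 1 le_rfl _ ?_ ?_
    · have e1 : Pool.Agent.R308.Pascal.cnt 7 1 = 1 := by decide
      have e2 : Pool.Agent.R308.Pascal.row 7 1 = 2 := by decide
      rw [e1, e2]
      norm_num [θ, Pool.Agent.R308.Pascal.theta]
    · intro n hn
      exact Pool.Agent.R308.Pascal.lower Pool.Agent.R308.Pascal.prime7
        Pool.Agent.R308.Pascal.reg7 h0 h1 Pool.Agent.R308.Pascal.step7 _ _ (by norm_num)
        Pool.Agent.R308.Pascal.fin7 n hn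
  · rw [lam_eq]
    have h0 : Pool.Agent.R308.Pascal.reg11 0 0 := by
      unfold Pool.Agent.R308.Pascal.reg11; norm_num
    have h1 : Pool.Agent.R308.Pascal.reg11 1 1 := by
      unfold Pool.Agent.R308.Pascal.reg11; norm_num
    have hval : (59 / 44 : ℝ) / (31 / 22 : ℝ) ^ Pool.Agent.R308.Pascal.theta 11
        = (59 / 44 : ℝ) * (22 / 31 : ℝ) ^ (θ 11) := by
      have : θ 11 = Pool.Agent.R308.Pascal.theta 11 := rfl
      rw [this, div_eq_mul_inv, ← Real.inv_rpow (by norm_num)]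
      norm_num
    refine Pool.Agent.R308.Pascal.liminf_eq Pool.Agent.R308.Pascal.prime11 5 rfl 15 (by norm_num)
      _ ?_ ?_
    · have e1 : Pool.Agent.R308.Pascal.cnt 11 15 = 86 := by decide +kernel
      have e2 : Pool.Agent.R308.Pascal.row 11 15 = 10 := by decide +kernel
      rw [e1, e2, ← hval]
      have h11 : (11 : ℝ) ^ Pool.Agent.R308.Pascal.theta 11 = 66 := by
        have := Pool.Agent.R308.Pascal.pow_theta Pool.Agent.R308.Pascal.prime11 1
        rw [pow_one, pow_one, Pool.Agent.R308.Pascal.CC11] at this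
        exact_mod_cast this
      have e3 : (((15 : ℕ) : ℝ) + 1 / 2) = 11 * (31 / 22) := by norm_num
      rw [e3, Real.mul_rpow (by norm_num) (by norm_num), h11]
      have hpos : (0 : ℝ) < (31 / 22 : ℝ) ^ Pool.Agent.R308.Pascal.theta 11 :=
        Real.rpow_pos_of_pos (by norm_num) _
      field_simp
      norm_num
    · intro n hn
      rw [← hval]
      exact Pool.Agent.R308.Pascal.lower Pool.Agent.R308.Pascal.prime11
        Pool.Agent.R308.Pascal.reg11 h0 h1 Pool.Agent.R308.Pascal.step11 _ _ (by norm_num)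
        Pool.Agent.R308.Pascal.fin11 n hn

end Pool.Agent.Results.MP_165cab_nt.LowerConstants
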